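import Pool.Agent.Q105.LAB.Pick

set_option autoImplicit false

/-!
Amalgamated decompositions: colour classes given by multiplicities on vertices with weights, and
splitting off one vertex of weight one such that the colour classes stay connected.
-/

namespace Pool.Agent.Q105.LAB

open Finset SimpleGraph

variable {X J : Type}

/-- The graph of the colour `j`. -/
def cg (n : J → X → X → ℕ) (j : J) : SimpleGraph X where
  Adj x y := x ≠ y ∧ (0 < n j x y ∨ 0 < n j y x)
  symm := ⟨fun _ _ h => ⟨h.1.symm, h.2.symm⟩⟩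
  loopless := ⟨fun _ h => h.1 rfl⟩

/-- An amalgamated decomposition of the multigraph `μ`: the vertex `x` stands for `w x` vertices,
all colour classes are connected. -/
structure Amal [Fintype X] [Fintype J] (μ : X → X → ℕ) (D : J → X → ℕ) (w : X → ℕ)
    (n : J → X → X → ℕ) : Prop where
  symm : ∀ j x y, n j x y = n j y x
  tot : ∀ x y, ∑ j, n j x y = w x * (w y * μ x y)
  deg : ∀ j x, ∑ y, n j x y = w x * D j x
  conn : ∀ j x y, 0 < w x → 0 < w y → (cg n j).Reachable x y

theorem Amal.off [Fintype X] [Fintype J] {μ : X → X → ℕ} {D : J → X → ℕ} {w : X → ℕ}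
    {n : J → X → X → ℕ} (h : Amal μ D w n) (j : J) {x y : X} (hxy : μ x y = 0) : n j x y = 0 := by
  have h1 := h.tot x y
  rw [hxy, mul_zero, mul_zero, sum_eq_zero_iff] at h1
  exact h1 j (mem_univ _)

theorem even_sq [DecidableEq X] (f : X → X → ℕ) (h1 : ∀ x y, f x y = f y x) (h2 : ∀ x, f x x = 0)
    (C : Finset X) : Even (∑ y ∈ C, ∑ v ∈ C, f y v) := by
  induction C using Finset.induction_on with
  | empty => simp
  | insert a C ha ih =>
    rw [sum_insert ha, sum_insert ha]
    have h3 : ∑ y ∈ C, ∑ v ∈ insert a C, f y v = ∑ y ∈ C, f a y + ∑ y ∈ C, ∑ v ∈ C, f y v := by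
      rw [← sum_add_distrib]
      refine sum_congr rfl fun y _ => ?_
      rw [sum_insert ha, h1]
    rw [h3, h2]
    obtain ⟨r, hr⟩ := ih
    exact ⟨∑ y ∈ C, f a y + r, by rw [hr]; ring⟩

/-- The tokens at the vertex `x`. -/
abbrev Tok (n : J → X → X → ℕ) (x : X) : Type := Σ j : J, Σ y : X, Fin (n j x y)

theorem card_tok [Fintype X] [Fintype J] (n : J → X → X → ℕ) (x : X)
    (p : J → X → Prop) [∀ j y, Decidable (p j y)] :
    (univ.filter (fun s : Tok n x => p s.1 s.2.1)).card =
      ∑ j, ∑ y, if p j y then n j x y else 0 := by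
  rw [card_filter, Fintype.sum_sigma]
  refine sum_congr rfl fun j _ => ?_
  rw [Fintype.sum_sigma]
  refine sum_congr rfl fun y _ => ?_
  show ∑ i : Fin (n j x y), (if p j y then 1 else 0) = _
  rw [sum_const, card_univ, Fintype.card_fin, smul_eq_mul]
  split_ifs <;> simp

/-- The graph of the colour `j` without the vertex `x`. -/
def dg (n : J → X → X → ℕ) (x : X) (j : J) : SimpleGraph X where
  Adj a b := a ≠ x ∧ b ≠ x ∧ (cg n j).Adj a b
  symm := ⟨fun _ _ h => ⟨h.2.1, h.1, h.2.2.symm⟩⟩
  loopless := ⟨fun _ h => (cg n j).loopless.irrefl _ h.2.2⟩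

theorem dg_reach_ne {n : J → X → X → ℕ} {x a b : X} {j : J} (h : (dg n x j).Reachable a b)
    (ha : a ≠ x) : b ≠ x := by
  obtain ⟨p⟩ := h
  induction p with
  | nil => exact ha
  | cons h p ih => exact ih h.2.1

theorem last_step {n : J → X → X → ℕ} {x : X} {j : J} (hs : ∀ x y, n j x y = n j y x) {a : X}
    (h : (cg n j).Reachable a x) (ha : a ≠ x) : ∃ y, (dg n x j).Reachable a y ∧ 0 < n j x y := by
  obtain ⟨p⟩ := h
  revert ha
  induction p with
  | nil => intro h; exact absurd rfl h
  | @cons a b c hab p ih =>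
    intro ha
    by_cases hb : b = c
    · refine ⟨a, Reachable.refl _, ?_⟩
      rw [← hb]
      rcases hab.2 with h | h
      · rw [hs]; exact h
      · exact h
    · obtain ⟨y, h1, h2⟩ := ih hb
      exact ⟨y, Reachable.trans (Adj.reachable ⟨ha, hb, hab⟩) h1, h2⟩

/-- The number of edges from `x` to a component of the rest is even. -/
theorem even_comp [Fintype X] [DecidableEq X] [Fintype J] {μ : X → X → ℕ} {D : J → X → ℕ}
    {w : X → ℕ} {n : J → X → X → ℕ} (h : Amal μ D w n) (hμ : ∀ x, μ x x = 0)
    (hD : ∀ j x, Even (D j x)) (x a : X)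
    (ha : a ≠ x) (j : J) (C : Finset X) (hC : ∀ y, y ∈ C ↔ (dg n x j).Reachable a y) :
    Even (∑ y ∈ C, n j x y) := by
  have h1 : ∑ y ∈ C, ∑ v, n j y v = ∑ y ∈ C, ∑ v ∈ C, n j y v + ∑ y ∈ C, n j x y := by
    rw [← sum_add_distrib]
    refine sum_congr rfl fun y hy => ?_
    have hyx : y ≠ x := dg_reach_ne ((hC y).1 hy) ha
    have hx : x ∉ C := fun hx => dg_reach_ne ((hC x).1 hx) ha rfl
    rw [h.symm j x y, add_comm, ← sum_insert (f := fun v => n j y v) hx]
    symm
    refine sum_subset (subset_univ _) fun v _ hv => ?_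
    by_contra hne
    apply hv
    by_cases hvx : v = x
    · rw [hvx]; exact mem_insert_self _ _
    · refine mem_insert_of_mem ((hC v).2 (((hC y).1 hy).trans (Adj.reachable ⟨hyx, hvx, ?_, ?_⟩)))
      · rintro rfl
        exact hne (h.off j (hμ y))
      · exact Or.inl (Nat.pos_of_ne_zero hne)
  have h2 : Even (∑ y ∈ C, ∑ v, n j y v) := by
    rw [sum_congr rfl (fun y _ => h.deg j y)]
    exact even_sum _ (fun y _ => (hD j y).mul_left _)
  have h3 : Even (∑ y ∈ C, ∑ v ∈ C, n j y v) := even_sq _ (h.symm j)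
    (fun y => h.off j (hμ y)) C
  rw [h1] at h2
  exact (Nat.even_add.1 h2).1 h3

/-- The choice of the edges which move to the new vertex. -/
theorem exists_z [Fintype X] [Fintype J] {μ : X → X → ℕ} {D : J → X → ℕ}
    {w : X → ℕ} {n : J → X → X → ℕ} (h : Amal μ D w n) {x : X} (hw : 2 ≤ w x)
    (hDx : ∀ j, D j x = 2) :
    ∃ z : J → X → ℕ, (∀ j y, z j y ≤ n j x y) ∧ (∀ j, ∑ y, z j y = 2) ∧
      (∀ y, ∑ j, z j y = w y * μ x y) ∧
      ∀ (j : J) (a : X) (C : Finset X), (∀ y, y ∈ C ↔ (dg n x j).Reachable a y) →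
        ∑ y ∈ C, n j x y = 2 → ∑ y ∈ C, z j y ≤ 1 := by
  classical
  let S : Type := Tok n x
  let P : S → Finset S := fun s => univ.filter
    (fun s' : S => s'.1 = s.1 ∧ (dg n x s.1).Reachable s.2.1 s'.2.1)
  let q : S → J × Finset S := fun s => (s.1, if (P s).card = 2 then P s else {s})
  have hself : ∀ s, s ∈ (q s).2 := by
    intro s
    show s ∈ (if (P s).card = 2 then P s else {s})
    split_ifs
    · exact mem_filter.2 ⟨mem_univ _, rfl, Reachable.refl _⟩
    · exact mem_singleton_self _
  have hcol : ∀ j, (univ.filter (fun s : S => s.1 = j)).card = 2 * w x := by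
    intro j
    rw [card_tok n x (fun j' _ => j' = j)]
    have h1 : ∀ j', (∑ y, if j' = j then n j' x y else 0) = if j' = j then ∑ y, n j' x y else 0 := by
      intro j'
      split_ifs <;> simp
    rw [sum_congr rfl (fun j' _ => h1 j'), sum_ite_eq' univ j, if_pos (mem_univ _), h.deg, hDx,
      mul_comm]
  have hen : ∀ y, (univ.filter (fun s : S => s.2.1 = y)).card =
      w x * (w y * μ x y) := by
    intro y
    rw [card_tok n x (fun _ y' => y' = y)]
    have h1 : ∀ j, (∑ y', if y' = y then n j x y' else 0) = n j x y := by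
      intro j
      rw [sum_ite_eq' univ y, if_pos (mem_univ _)]
    rw [sum_congr rfl (fun j _ => h1 j)]
    exact h.tot x y
  obtain ⟨Z, hZ1, hZ2, hZ3⟩ := pick (fun s : S => s.1) (fun s : S => s.2.1) q Prod.fst
    (fun s => rfl) (by
      intro ρ
      by_cases hρ : ∃ s, q s = ρ
      · obtain ⟨s, rfl⟩ := hρ
        have h1 : univ.filter (fun s' => q s' = q s) ⊆ (q s).2 := by
          intro s' hs'
          rw [← (mem_filter.1 hs').2]
          exact hself s'
        refine le_trans (card_le_card h1) ?_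
        show (if (P s).card = 2 then P s else {s}).card ≤ 2
        split_ifs with h2
        · exact h2.le
        · rw [card_singleton]; omega
      · have h1 : univ.filter (fun s' => q s' = ρ) = ∅ := by
          ext s'
          simp only [mem_filter, mem_univ, true_and, notMem_empty, iff_false]
          exact fun h => hρ ⟨s', h⟩
        rw [h1, card_empty]
        omega) (w x) hw hcol (fun y => w y * μ x y) hen
  let z : J → X → ℕ := fun j y => (Z.filter (fun s : S => s.1 = j ∧ s.2.1 = y)).card
  have hz : ∀ j y, z j y ≤ n j x y := by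
    intro j y
    have h1 : Z.filter (fun s : S => s.1 = j ∧ s.2.1 = y) ⊆
        univ.filter (fun s : S => s.1 = j ∧ s.2.1 = y) := filter_subset_filter _ (subset_univ _)
    refine le_trans (card_le_card h1) ?_
    rw [card_tok n x (fun j' y' => j' = j ∧ y' = y)]
    have h2 : ∀ j', (∑ y', if (j' = j ∧ y' = y) then n j' x y' else 0) =
        if j' = j then n j' x y else 0 := by
      intro j'
      by_cases hj : j' = j
      · simp [hj]
      · simp [hj]
    rw [sum_congr rfl (fun j' _ => h2 j'), sum_ite_eq' univ j, if_pos (mem_univ _)]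
  have hfib : ∀ (A : Finset S) (j : J) (C : Finset X),
      ∑ y ∈ C, (A.filter (fun s : S => s.1 = j ∧ s.2.1 = y)).card =
        (A.filter (fun s : S => s.1 = j ∧ s.2.1 ∈ C)).card := by
    intro A j C
    rw [card_eq_sum_card_fiberwise (f := fun s : S => s.2.1) (t := C)
      (s := A.filter (fun s : S => s.1 = j ∧ s.2.1 ∈ C))]
    · refine sum_congr rfl fun y hy => ?_
      congr 1
      ext s
      simp only [mem_filter]
      constructor
      · rintro ⟨h1, h2, h3⟩
        exact ⟨⟨h1, h2, h3 ▸ hy⟩, h3⟩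
      · rintro ⟨⟨h1, h2, _⟩, h3⟩
        exact ⟨h1, h2, h3⟩
    · intro s hs
      exact (mem_filter.1 hs).2.2
  refine ⟨z, hz, ?_, ?_, ?_⟩
  · intro j
    have h1 := hfib Z j univ
    simp only [mem_univ, and_true] at h1
    rw [← hZ1 j]
    exact h1
  · intro y
    have h1 := hZ2 y
    rw [← h1, card_eq_sum_card_fiberwise (f := fun s : S => s.1) (t := univ)
      (fun _ _ => mem_coe.2 (mem_univ _))]
    refine sum_congr rfl fun j _ => ?_
    show (Z.filter (fun s : S => s.1 = j ∧ s.2.1 = y)).card = _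
    congr 1
    ext s
    simp only [mem_filter]
    tauto
  · intro j a C hC
    have hCe : C = univ.filter (fun y => (dg n x j).Reachable a y) := by
      ext y
      rw [hC, mem_filter]
      exact ⟨fun h => ⟨mem_univ _, h⟩, fun h => h.2⟩
    rw [hCe]
    intro h2
    have h1 := hfib Z j (univ.filter (fun y => (dg n x j).Reachable a y))
    have h3 := hfib univ j (univ.filter (fun y => (dg n x j).Reachable a y))
    show ∑ y ∈ univ.filter (fun y => (dg n x j).Reachable a y),
      (Z.filter (fun s : S => s.1 = j ∧ s.2.1 = y)).card ≤ 1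
    have h4 : ∀ y, (univ.filter (fun s : S => s.1 = j ∧ s.2.1 = y)).card = n j x y := by
      intro y
      rw [card_tok n x (fun j' y' => j' = j ∧ y' = y)]
      have h2 : ∀ j', (∑ y', if (j' = j ∧ y' = y) then n j' x y' else 0) =
          if j' = j then n j' x y else 0 := by
        intro j'
        by_cases hj : j' = j
        · simp [hj]
        · simp [hj]
      rw [sum_congr rfl (fun j' _ => h2 j'), sum_ite_eq' univ j, if_pos (mem_univ _)]
    rw [sum_congr rfl (fun y _ => h4 y), h2] at h3
    rw [h1, card_le_one]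
    have hP : ∀ s : S, s.1 = j → (dg n x j).Reachable a s.2.1 → P s = univ.filter
        (fun s : S => s.1 = j ∧ s.2.1 ∈ univ.filter (fun y => (dg n x j).Reachable a y)) := by
      rintro ⟨j', y, i⟩ hj hr
      obtain rfl : j' = j := hj
      ext s'
      simp only [P, mem_filter, mem_univ, true_and]
      constructor
      · rintro ⟨h5, h6⟩
        exact ⟨h5, hr.trans h6⟩
      · rintro ⟨h5, h6⟩
        exact ⟨h5, hr.symm.trans h6⟩
    intro s hs s' hs'
    obtain ⟨hs1, hs2, hs3⟩ := mem_filter.1 hs
    obtain ⟨hs1', hs2', hs3'⟩ := mem_filter.1 hs'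
    have hr := (mem_filter.1 hs3).2
    have hr' := (mem_filter.1 hs3').2
    refine hZ3 hs1 hs1' ?_
    show (s.1, if (P s).card = 2 then P s else {s}) = (s'.1, if (P s').card = 2 then P s' else {s'})
    rw [hP s hs2 hr, hP s' hs2' hr', ← h3, if_pos rfl, if_pos rfl, hs2, hs2']

end Pool.Agent.Q105.LAB
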