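import Pool.Agent.Q105.LAB.Grp

set_option autoImplicit false

/-!
Assembly of the groups.
-/

namespace Pool.Agent.Q105.LAB

open Finset SimpleGraph H931R3.LA Pool.Agent.W111.LAR

open Classical in
/-- Two groups share one additional class. -/
theorem cov_grps {V : Type} [Fintype V] {m B : ℕ} (hm1 : 1 ≤ m) (G : SimpleGraph V)
    {J : Fin B × Bool → Type} [∀ x, Fintype (J x)] {M : Fin B × Bool → V → V → ℕ}
    {N : ∀ x, J x → V → V → ℕ} {Q : Fin B × Bool → V → V → ℕ} (h : ∀ x, Grp m (M x) (N x) (Q x))
    (hM : ∀ u v, ∑ x, M x u v = if G.Adj u v then m * m else 0) :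
    Cov (bl G (Fin m)) (∑ x, Fintype.card (J x) + B) := by
  let NN : (Σ x, J x) ⊕ Fin B → V → V → ℕ := fun j u v => match j with
    | Sum.inl j => N j.1 j.2 u v
    | Sum.inr b => Q (b, false) u v + Q (b, true) u v
  have htot : ∀ u v, ∑ j, NN j u v = if G.Adj u v then m * m else 0 := by
    intro u v
    rw [← hM, Fintype.sum_sum_type, Fintype.sum_sigma]
    show ∑ x, ∑ j, N x j u v + ∑ b, (Q (b, false) u v + Q (b, true) u v) = _
    have h1 : ∑ b, (Q (b, false) u v + Q (b, true) u v) = ∑ x, Q x u v := by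
      rw [Fintype.sum_prod_type]
      refine sum_congr rfl fun b _ => ?_
      rw [Fintype.sum_bool, add_comm]
    rw [h1, ← sum_add_distrib]
    exact sum_congr rfl fun x _ => (h x).tot u v
  have hcard : Fintype.card ((Σ x, J x) ⊕ Fin B) = ∑ x, Fintype.card (J x) + B := by
    rw [Fintype.card_sum, Fintype.card_sigma, Fintype.card_fin]
  rw [← hcard]
  refine cov_crit G hm1 NN ?_ ?_ ?_ ?_ ?_
  · rintro (⟨x, j⟩ | b) u v
    · exact (h x).symN j u v
    · show Q (b, false) u v + Q (b, true) u v = Q (b, false) v u + Q (b, true) v u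
      rw [(h (b, false)).symQ, (h (b, true)).symQ]
  · intro j u v huv
    have h := htot u v
    rw [if_neg huv, sum_eq_zero_iff] at h
    exact h j (mem_univ _)
  · intro u v huv
    rw [htot, if_pos huv]
  · rintro (⟨x, j⟩ | b) u
    · exact (h x).degN j u
    · show ∑ v, (Q (b, false) u v + Q (b, true) u v) ≤ 2 * m
      rw [sum_add_distrib]
      have := (h (b, false)).degQ u
      have := (h (b, true)).degQ u
      omega
  · rintro (⟨x, j⟩ | b) v
    · exact (h x).defN j v
    · obtain ⟨u, hu1, hu2⟩ := (h (b, false)).defQ v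
      refine ⟨u, hu1.mono ?_, ?_⟩
      · rintro a c ⟨h1, h2⟩
        refine ⟨h1, ?_⟩
        rcases h2 with h | h
        · left
          show 0 < Q (b, false) a c + Q (b, true) a c
          have h' : 0 < Q (b, false) a c := h
          omega
        · right
          show 0 < Q (b, false) c a + Q (b, true) c a
          have h' : 0 < Q (b, false) c a := h
          omega
      · show ∑ w, (Q (b, false) u w + Q (b, true) u w) < 2 * m
        rw [sum_add_distrib]
        have := (h (b, true)).degQ u
        omega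

theorem exists_parts (k m B : ℕ) (hm : 1 ≤ m) (h : k ≤ 2 * m * B) :
    ∃ p : Fin k → Fin B × Bool, ∀ x, (univ.filter (fun i => p i = x)).card ≤ m := by
  have hlt : ∀ i : Fin k, (i : ℕ) / m / 2 < B := by
    intro i
    rw [Nat.div_div_eq_div_mul, Nat.div_lt_iff_lt_mul (by omega)]
    have := i.2
    have h1 : B * (m * 2) = 2 * m * B := by ring
    omega
  refine ⟨fun i => (⟨(i : ℕ) / m / 2, hlt i⟩, decide ((i : ℕ) / m % 2 = 1)), fun x => ?_⟩
  have h1 : Set.InjOn (fun i : Fin k => (i : ℕ) % m)
      (univ.filter (fun i : Fin k => ((⟨(i : ℕ) / m / 2, hlt i⟩,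
        decide ((i : ℕ) / m % 2 = 1)) : Fin B × Bool) = x) : Finset (Fin k)) := by
    intro i hi j hj hij
    have h2 := (mem_filter.1 (mem_coe.1 hi)).2.trans (mem_filter.1 (mem_coe.1 hj)).2.symm
    have h3 : (i : ℕ) / m / 2 = (j : ℕ) / m / 2 := congrArg (fun y => (y.1 : ℕ)) h2
    have h4 : decide ((i : ℕ) / m % 2 = 1) = decide ((j : ℕ) / m % 2 = 1) :=
      congrArg Prod.snd h2
    have h5 : (i : ℕ) / m = (j : ℕ) / m := by
      by_cases h6 : (i : ℕ) / m % 2 = 1
      · have h7 : (j : ℕ) / m % 2 = 1 := of_decide_eq_true (by rw [← h4]; exact decide_eq_true h6)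
        omega
      · have h7 : ¬ (j : ℕ) / m % 2 = 1 := of_decide_eq_false (by
          rw [← h4]; exact decide_eq_false h6)
        omega
    apply Fin.ext
    have h8 := Nat.div_add_mod (i : ℕ) m
    have h9 := Nat.div_add_mod (j : ℕ) m
    have hij' : (i : ℕ) % m = (j : ℕ) % m := hij
    rw [h5, hij'] at h8
    omega
  have h2 := card_image_of_injOn h1
  rw [← h2]
  have h3 : (univ.filter (fun i : Fin k => ((⟨(i : ℕ) / m / 2, hlt i⟩,
      decide ((i : ℕ) / m % 2 = 1)) : Fin B × Bool) = x)).image (fun i : Fin k => (i : ℕ) % m) ⊆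
      range m := by
    intro y hy
    obtain ⟨i, _, rfl⟩ := mem_image.1 hy
    exact mem_range.2 (Nat.mod_lt _ (by omega))
  exact le_trans (card_le_card h3) (by rw [card_range])

/-- A family of edge-disjoint two-factors. -/
structure Fam {V ι : Type} (H : ι → SimpleGraph V) : Prop where
  two : ∀ i u, ((H i).neighborSet u).ncard = 2
  dis : ∀ i j u v, (H i).Adj u v → (H j).Adj u v → i = j

open Classical in
/-- The group of a family of edge-disjoint two-factors. -/
theorem Fam.grp {V ι : Type} [Fintype V] [Fintype ι] {H : ι → SimpleGraph V} (h : Fam H) {m : ℕ}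
    (hm2 : 2 ≤ m) (hι : Fintype.card ι ≤ m) :
    ∃ (N : ι × Fin m → V → V → ℕ) (Q : V → V → ℕ),
      Grp m (fun u v => m * (m * ∑ i, (if (H i).Adj u v then 1 else 0))) N Q := by
  let e : ι ≃ Fin (Fintype.card ι) := Fintype.equivFin ι
  let a : ι × Fin m → ℕ := fun t => 2 * (e t.1 : ℕ) + (if (t.2 : ℕ) = 0 then 1 else 0)
  have hsum : ∀ i u, ∑ v, (if (H i).Adj u v then 1 else 0) = 2 := by
    intro i u
    rw [← h.two i u]
    exact sum_adj (H i) u
  have c1 : ∀ c, c % 2 = 1 → (univ.filter (fun t => a t = c)).card ≤ 1 := by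
    intro c hc
    rw [card_le_one]
    intro s hs t ht
    have h1 : 2 * (e s.1 : ℕ) + (if (s.2 : ℕ) = 0 then 1 else 0) = c := (mem_filter.1 hs).2
    have h2 : 2 * (e t.1 : ℕ) + (if (t.2 : ℕ) = 0 then 1 else 0) = c := (mem_filter.1 ht).2
    split_ifs at h1 h2 with h3 h4 h5
    · refine Prod.ext (e.injective (Fin.ext ?_)) (Fin.ext ?_) <;> omega
    · omega
    · omega
    · omega
  have c2 : ∀ c, c % 2 = 0 → (univ.filter (fun t => a t = c)).card ≤ m - 1 := by
    intro c hc
    have h0 : Set.InjOn (fun t : ι × Fin m => (t.2 : ℕ)) (univ.filter (fun t => a t = c)) := by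
      intro s hs t ht hst
      have h1 : 2 * (e s.1 : ℕ) + (if (s.2 : ℕ) = 0 then 1 else 0) = c :=
        (mem_filter.1 (mem_coe.1 hs)).2
      have h2 : 2 * (e t.1 : ℕ) + (if (t.2 : ℕ) = 0 then 1 else 0) = c :=
        (mem_filter.1 (mem_coe.1 ht)).2
      have hst' : (s.2 : ℕ) = (t.2 : ℕ) := hst
      refine Prod.ext (e.injective (Fin.ext ?_)) (Fin.ext hst')
      rw [hst'] at h1
      omega
    rw [← card_image_of_injOn h0]
    have h3 : (univ.filter (fun t => a t = c)).image (fun t : ι × Fin m => (t.2 : ℕ)) ⊆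
        (range m).erase 0 := by
      intro y hy
      obtain ⟨t, ht, rfl⟩ := mem_image.1 hy
      have h2 : 2 * (e t.1 : ℕ) + (if (t.2 : ℕ) = 0 then 1 else 0) = c := (mem_filter.1 ht).2
      refine mem_erase.2 ⟨?_, mem_range.2 t.2.2⟩
      intro h4
      rw [if_pos h4] at h2
      omega
    refine le_trans (card_le_card h3) ?_
    rw [card_erase_of_mem (mem_range.2 (by omega)), card_range]
  have c3 : ∀ c, (univ.filter (fun t => a t + 1 = c + 1)) = univ.filter (fun t => a t = c) := by
    intro c
    ext t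
    simp
  refine grp_of m m (2 * Fintype.card ι) hm2 hι _ (fun i u v => if (H i).Adj u v then 1 else 0)
    (fun u v => rfl) (fun i u v => if_congr ((H i).adj_comm u v) rfl rfl) hsum a ?_ ?_ ?_ ?_
  · intro t
    have := (e t.1).2
    show 2 * (e t.1 : ℕ) + (if (t.2 : ℕ) = 0 then 1 else 0) < _
    split_ifs <;> omega
  · intro c
    rcases Nat.mod_two_eq_zero_or_one c with hc | hc
    · exact c2 c hc
    · have := c1 c hc
      omega
  · intro c
    cases c with
    | zero =>
      have h1 : univ.filter (fun t : ι × Fin m => a t + 1 = 0) = ∅ := by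
        ext t
        simp
      rw [h1, card_empty]
      have := c2 0 rfl
      omega
    | succ c =>
      rw [c3]
      rcases Nat.mod_two_eq_zero_or_one c with hc | hc
      · have := c2 c hc
        have := c1 (c + 1) (by omega)
        omega
      · have := c1 c hc
        have := c2 (c + 1) (by omega)
        omega
  · intro v
    have h1 : (cg (fun _ : Unit => fun u v => ∑ i, (if (H i).Adj u v then 1 else 0)) ()).neighborSet v
        = ((univ.filter (fun u => 0 < ∑ i, (if (H i).Adj v u then 1 else 0)) : Finset V) :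
          Set V) := by
      ext u
      rw [mem_neighborSet, mem_coe, mem_filter]
      constructor
      · rintro ⟨_, h2 | h2⟩
        · exact ⟨mem_univ _, h2⟩
        · refine ⟨mem_univ _, lt_of_lt_of_eq h2 ?_⟩
          exact sum_congr rfl fun i _ => if_congr ((H i).adj_comm u v) rfl rfl
      · rintro ⟨_, h2⟩
        refine ⟨?_, Or.inl h2⟩
        rintro rfl
        rw [sum_eq_zero (fun i _ => if_neg ((H i).loopless.irrefl v))] at h2
        omega
    rw [h1, Set.ncard_coe_finset]
    have h2 : ∀ u, ∑ i, (if (H i).Adj v u then 1 else 0) ≤ 1 := by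
      intro u
      rw [← card_filter, card_le_one]
      intro i hi j hj
      exact h.dis i j v u (mem_filter.1 hi).2 (mem_filter.1 hj).2
    have h3 : ∑ u, ∑ i, (if (H i).Adj v u then 1 else 0) = 2 * Fintype.card ι := by
      rw [sum_comm, sum_congr rfl (fun i _ => hsum i v), sum_const, card_univ, smul_eq_mul,
        mul_comm]
    rw [← h3, card_filter]
    refine sum_le_sum fun u _ => ?_
    have := h2 u
    split_ifs <;> omega

open Classical in
/-- Blow-ups of regular graphs of even degree. -/
theorem cov_even {V : Type} [Finite V] (G : SimpleGraph V) (k m B : ℕ) (hm2 : 2 ≤ m)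
    (hB : k ≤ 2 * m * B) (hreg : ∀ v, (G.neighborSet v).ncard = 2 * k) :
    Cov (bl G (Fin m)) (m * k + B) := by
  have := Fintype.ofFinite V
  obtain ⟨H, h1, hsup, h2⟩ := two_fac G k hreg
  obtain ⟨p, hp⟩ := exists_parts k m B (by omega) hB
  have hfam : Fam H := by
    refine ⟨h1, fun i j u v hi hj => ?_⟩
    have h3 : G.Adj u v := by
      rw [← hsup, iSup_adj]
      exact ⟨i, hi⟩
    have h4 := h2 u v h3
    rw [← card_filter] at h4
    exact card_le_one.1 h4.le i (mem_filter.2 ⟨mem_univ _, hi⟩) j (mem_filter.2 ⟨mem_univ _, hj⟩)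
  have hsub : ∀ x, Fam (fun i : {i // p i = x} => H i.1) := fun x =>
    ⟨fun i u => hfam.two _ u, fun i j u v h3 h4 => Subtype.ext (hfam.dis _ _ u v h3 h4)⟩
  have hex : ∀ x, ∃ (N : {i // p i = x} × Fin m → V → V → ℕ) (Q : V → V → ℕ),
      Grp m (fun u v => m * (m * ∑ i : {i // p i = x}, (if (H i.1).Adj u v then 1 else 0))) N Q :=
    fun x => (hsub x).grp hm2 (by rw [Fintype.card_subtype]; exact hp x)
  choose N Q hNQ using hex
  have h3 := cov_grps (by omega) G hNQ (by
    intro u v
    rw [← mul_sum, ← mul_sum]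
    have h4 : ∑ x, ∑ i : {i // p i = x}, (if (H i.1).Adj u v then 1 else 0) =
        ∑ i, (if (H i).Adj u v then 1 else 0) := by
      rw [← sum_fiberwise univ p (fun i => if (H i).Adj u v then 1 else 0)]
      refine sum_congr rfl fun x _ => ?_
      rw [← sum_subtype (univ.filter (fun i => p i = x)) (fun i => by simp)
        (fun i => if (H i).Adj u v then 1 else 0)]
    rw [h4]
    split_ifs with h5
    · rw [h2 u v h5, mul_one]
    · rw [sum_eq_zero, mul_zero, mul_zero]
      intro i _
      refine if_neg fun h6 => h5 ?_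
      rw [← hsup, iSup_adj]
      exact ⟨i, h6⟩)
  have h4 : ∑ x, Fintype.card ({i // p i = x} × Fin m) = m * k := by
    have h5 : ∀ x, Fintype.card ({i // p i = x} × Fin m) =
        m * (univ.filter (fun i => p i = x)).card := by
      intro x
      rw [Fintype.card_prod, Fintype.card_fin, Fintype.card_subtype, mul_comm]
    rw [sum_congr rfl (fun x _ => h5 x), ← mul_sum]
    congr 1
    rw [← card_eq_sum_card_fiberwise (f := p) (t := univ) (fun _ _ => mem_coe.2 (mem_univ _)),
      card_univ, Fintype.card_fin]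
  rw [h4] at h3
  exact h3

end Pool.Agent.Q105.LAB
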