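import Pool.Agent.Q105.LAB.Fac

set_option autoImplicit false

/-!
Groups of two-factors: their classes lose one edge in every component, and the lost edges form a
graph of small degree.
-/

namespace Pool.Agent.Q105.LAB

open Finset SimpleGraph H931R3.LA Pool.Agent.W111.LAR

/-- A group: classes `N j` and a rest `Q` of degree at most `m`. -/
structure Grp {V J : Type} [Fintype V] [Fintype J] (m : ℕ) (M : V → V → ℕ)
    (N : J → V → V → ℕ) (Q : V → V → ℕ) : Prop where
  symN : ∀ j u v, N j u v = N j v u
  symQ : ∀ u v, Q u v = Q v u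
  tot : ∀ u v, ∑ j, N j u v + Q u v = M u v
  degN : ∀ j u, ∑ v, N j u v ≤ 2 * m
  defN : ∀ j v, ∃ u, (cg N j).Reachable v u ∧ ∑ w, N j u w < 2 * m
  degQ : ∀ u, ∑ v, Q u v ≤ m
  defQ : ∀ v, ∃ u, (cg (fun _ : Unit => Q) ()).Reachable v u ∧ ∑ w, Q u w < m

open Classical in
theorem cov_two_grp {V J₁ J₂ : Type} [Fintype V] [Fintype J₁] [Fintype J₂] {m : ℕ} (hm1 : 1 ≤ m)
    (G : SimpleGraph V) {M₁ M₂ : V → V → ℕ} {N₁ : J₁ → V → V → ℕ} {N₂ : J₂ → V → V → ℕ}
    {Q₁ Q₂ : V → V → ℕ} (h₁ : Grp m M₁ N₁ Q₁) (h₂ : Grp m M₂ N₂ Q₂)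
    (hM : ∀ u v, M₁ u v + M₂ u v = if G.Adj u v then m * m else 0) :
    Cov (bl G (Fin m)) (Fintype.card J₁ + Fintype.card J₂ + 1) := by
  let N : Option (J₁ ⊕ J₂) → V → V → ℕ := fun j u v => match j with
    | none => Q₁ u v + Q₂ u v
    | some (Sum.inl j) => N₁ j u v
    | some (Sum.inr j) => N₂ j u v
  have htot : ∀ u v, ∑ j, N j u v = if G.Adj u v then m * m else 0 := by
    intro u v
    rw [← hM, ← h₁.tot, ← h₂.tot, Fintype.sum_option, Fintype.sum_sum_type]
    show Q₁ u v + Q₂ u v + (∑ j, N₁ j u v + ∑ j, N₂ j u v) = _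
    ring
  have hcard : Fintype.card (Option (J₁ ⊕ J₂)) = Fintype.card J₁ + Fintype.card J₂ + 1 := by
    rw [Fintype.card_option, Fintype.card_sum]
  rw [← hcard]
  refine cov_crit G hm1 N ?_ ?_ ?_ ?_ ?_
  · rintro (_ | j | j) u v
    · show Q₁ u v + Q₂ u v = Q₁ v u + Q₂ v u
      rw [h₁.symQ, h₂.symQ]
    · exact h₁.symN j u v
    · exact h₂.symN j u v
  · intro j u v huv
    have h := htot u v
    rw [if_neg huv, sum_eq_zero_iff] at h
    exact h j (mem_univ _)
  · intro u v huv
    rw [htot, if_pos huv]
  · rintro (_ | j | j) u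
    · show ∑ v, (Q₁ u v + Q₂ u v) ≤ 2 * m
      rw [sum_add_distrib]
      have := h₁.degQ u
      have := h₂.degQ u
      omega
    · exact h₁.degN j u
    · exact h₂.degN j u
  · rintro (_ | j | j) v
    · obtain ⟨u, hu1, hu2⟩ := h₁.defQ v
      refine ⟨u, hu1.mono ?_, ?_⟩
      · rintro a b ⟨h1, h2⟩
        refine ⟨h1, ?_⟩
        rcases h2 with h | h
        · left
          show 0 < Q₁ a b + Q₂ a b
          have h' : 0 < Q₁ a b := h
          omega
        · right
          show 0 < Q₁ b a + Q₂ b a
          have h' : 0 < Q₁ b a := h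
          omega
      · show ∑ w, (Q₁ u w + Q₂ u w) < 2 * m
        rw [sum_add_distrib]
        have := h₂.degQ u
        omega
    · exact h₁.defN j v
    · exact h₂.defN j v

theorem grp_empty {V : Type} [Fintype V] {m : ℕ} (hm1 : 1 ≤ m) :
    Grp (J := Empty) m (fun _ _ : V => 0) (fun j => j.elim) (fun _ _ => 0) where
  symN := fun j => j.elim
  symQ := fun _ _ => rfl
  tot := fun _ _ => by simp
  degN := fun j => j.elim
  defN := fun j => j.elim
  degQ := fun _ => by simp
  defQ := fun v => ⟨v, Reachable.refl _, by rw [sum_const_zero]; omega⟩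

open Classical in
theorem grp_of {V ι : Type} [Fintype V] [Fintype ι] (m M0 ℓ : ℕ) (hm2 : 2 ≤ m)
    (hι : Fintype.card ι ≤ m) (A : V → V → ℕ) (f : ι → V → V → ℕ)
    (hA : ∀ u v, ∑ i, f i u v = A u v) (hsym : ∀ i u v, f i u v = f i v u)
    (hsum : ∀ i u, ∑ v, f i u v = 2) (a : ι × Fin M0 → ℕ) (ha : ∀ t, a t < ℓ)
    (ha1 : ∀ c, (univ.filter (fun t => a t = c)).card ≤ m - 1)
    (ha2 : ∀ c, (univ.filter (fun t => a t = c)).card +
      (univ.filter (fun t => a t + 1 = c)).card ≤ m)
    (hpath : ∀ v, ℓ ≤ ((cg (fun _ : Unit => A) ()).neighborSet v).ncard) :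
    ∃ (N : ι × Fin M0 → V → V → ℕ) (Q : V → V → ℕ),
      Grp m (fun u v => M0 * (m * A u v)) N Q := by
  let S : SimpleGraph V := cg (fun _ : Unit => A) ()
  have hAs : ∀ u v, A u v = A v u := by
    intro u v
    rw [← hA, ← hA]
    exact sum_congr rfl fun i _ => hsym i u v
  have hSA : ∀ u v, S.Adj u v → 0 < A u v := by
    rintro u v ⟨_, h | h⟩
    · exact h
    · rw [hAs]; exact h
  choose X hX0 hX1 hX2 using fun v => greedy_path S ℓ hpath v ℓ le_rfl
  let x : V → ℕ → V := fun v => X (rep S v)
  have hx4 : ∀ u v, S.Reachable u v → x u = x v := by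
    intro u v h
    show X (rep S u) = X (rep S v)
    rw [rep_eq h]
  have hx2 : ∀ v n, n < ℓ → S.Adj (x v n) (x v (n + 1)) := fun v n hn => hX1 _ n hn
  have hx1 : ∀ v n, n ≤ ℓ → S.Reachable v (x v n) := by
    intro v n
    induction n with
    | zero =>
      intro _
      show S.Reachable v (X (rep S v) 0)
      rw [hX0]
      exact (rep_reach S v).symm
    | succ n ih =>
      intro hn
      exact (ih (by omega)).trans (hx2 v n (by omega)).reachable
  have hx3 : ∀ v i j, i ≤ ℓ → j ≤ ℓ → x v i = x v j → i = j := fun v i j hi hj h =>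
    hX2 _ i hi j hj h
  have hxx : ∀ v n, n ≤ ℓ → x (x v n) = x v := fun v n hn => (hx4 _ _ (hx1 v n hn)).symm
  let rem : ι × Fin M0 → V → V → ℕ := fun t u v =>
    (if x u (a t) = u ∧ x u (a t + 1) = v then 1 else 0) +
      (if x u (a t + 1) = u ∧ x u (a t) = v then 1 else 0)
  have hflip : ∀ t u v, (x u (a t) = u ∧ x u (a t + 1) = v) → x v (a t + 1) = v ∧ x v (a t) = u := by
    rintro t u v ⟨h1, h2⟩
    have h3 := ha t
    have h4 : x v = x u := by
      rw [← h2]
      exact hxx u (a t + 1) (by omega)
    rw [h4]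
    exact ⟨h2, h1⟩
  have hflip' : ∀ t u v, (x u (a t + 1) = u ∧ x u (a t) = v) → x v (a t) = v ∧ x v (a t + 1) = u := by
    rintro t u v ⟨h1, h2⟩
    have h3 := ha t
    have h4 : x v = x u := by
      rw [← h2]
      exact hxx u (a t) (by omega)
    rw [h4]
    exact ⟨h2, h1⟩
  have rsym : ∀ t u v, rem t u v = rem t v u := by
    intro t u v
    show (if x u (a t) = u ∧ x u (a t + 1) = v then 1 else 0) +
      (if x u (a t + 1) = u ∧ x u (a t) = v then 1 else 0) =
      (if x v (a t) = v ∧ x v (a t + 1) = u then 1 else 0) +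
      (if x v (a t + 1) = v ∧ x v (a t) = u then 1 else 0)
    rw [add_comm]
    congr 1
    · exact if_congr ⟨hflip' t u v, hflip t v u⟩ rfl rfl
    · exact if_congr ⟨hflip t u v, hflip' t v u⟩ rfl rfl
  have hne : ∀ t v, x v (a t) ≠ x v (a t + 1) := fun t v => (hx2 v (a t) (ha t)).ne
  have radj : ∀ t u v, 0 < rem t u v → S.Adj u v := by
    intro t u v h
    by_cases h1 : x u (a t) = u ∧ x u (a t + 1) = v
    · have := hx2 u (a t) (ha t)
      rw [h1.1, h1.2] at this
      exact this
    · by_cases h2 : x u (a t + 1) = u ∧ x u (a t) = v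
      · have := hx2 u (a t) (ha t)
        rw [h2.1, h2.2] at this
        exact this.symm
      · have h3 : rem t u v = 0 := by
          show (if x u (a t) = u ∧ x u (a t + 1) = v then 1 else 0) +
            (if x u (a t + 1) = u ∧ x u (a t) = v then 1 else 0) = 0
          rw [if_neg h1, if_neg h2]
        omega
  have r1 : ∀ t u v, rem t u v ≤ 1 := by
    intro t u v
    show (if x u (a t) = u ∧ x u (a t + 1) = v then 1 else 0) +
      (if x u (a t + 1) = u ∧ x u (a t) = v then 1 else 0) ≤ 1
    by_cases h1 : x u (a t) = u ∧ x u (a t + 1) = v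
    · have h2 : ¬ (x u (a t + 1) = u ∧ x u (a t) = v) := fun h2 =>
        hne t u (h1.1.trans h2.1.symm)
      rw [if_pos h1, if_neg h2]
    · rw [if_neg h1]
      split_ifs <;> omega
  have rsum : ∀ t u, ∑ v, rem t u v =
      (if x u (a t) = u then 1 else 0) + (if x u (a t + 1) = u then 1 else 0) := by
    intro t u
    show ∑ v, ((if x u (a t) = u ∧ x u (a t + 1) = v then 1 else 0) +
      (if x u (a t + 1) = u ∧ x u (a t) = v then 1 else 0)) = _
    rw [sum_add_distrib]
    have key : ∀ (P : Prop) (b : V), ∑ v, (if P ∧ b = v then 1 else 0) = if P then 1 else 0 := by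
      intro P b
      by_cases hP : P
      · simp [hP]
      · simp [hP]
    rw [key, key]
  let g := Fintype.card ι
  let base : ι × Fin M0 → V → V → ℕ := fun t u v => A u v + (m - g) * f t.1 u v
  have hrb : ∀ t u v, rem t u v ≤ base t u v := by
    intro t u v
    rcases Nat.eq_zero_or_pos (rem t u v) with h | h
    · rw [h]; exact Nat.zero_le _
    · have h1 := hSA u v (radj t u v h)
      have h2 := r1 t u v
      show rem t u v ≤ A u v + (m - g) * f t.1 u v
      omega
  have hbsum : ∀ t u, ∑ v, base t u v = 2 * m := by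
    intro t u
    show ∑ v, (A u v + (m - g) * f t.1 u v) = 2 * m
    have h1 : ∑ v, A u v = 2 * g := by
      rw [sum_congr rfl (fun v _ => (hA u v).symm), sum_comm, sum_congr rfl (fun i _ => hsum i u),
        sum_const, card_univ, smul_eq_mul, mul_comm]
    rw [sum_add_distrib, h1, ← mul_sum, hsum]
    have : g ≤ m := hι
    omega
  let N : ι × Fin M0 → V → V → ℕ := fun t u v => base t u v - rem t u v
  let Q : V → V → ℕ := fun u v => ∑ t, rem t u v
  have hNdeg : ∀ t u, ∑ v, N t u v = 2 * m - ∑ v, rem t u v := by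
    intro t u
    show ∑ v, (base t u v - rem t u v) = _
    rw [sum_tsub_distrib _ (fun v _ => hrb t u v), hbsum]
  have hQdeg : ∀ u, ∑ v, Q u v = ∑ t, ((if x u (a t) = u then 1 else 0) +
      (if x u (a t + 1) = u then 1 else 0)) := by
    intro u
    show ∑ v, ∑ t, rem t u v = _
    rw [sum_comm]
    exact sum_congr rfl fun t _ => rsum t u
  have hQc : ∀ v c, c ≤ ℓ → ∑ w, Q (x v c) w = (univ.filter (fun t => a t = c)).card +
      (univ.filter (fun t => a t + 1 = c)).card := by
    intro v c hc
    rw [hQdeg, sum_add_distrib, hxx v c hc, card_filter, card_filter]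
    congr 1
    · refine sum_congr rfl fun t _ => if_congr ⟨fun h => ?_, fun h => by rw [h]⟩ rfl rfl
      exact hx3 v _ _ (ha t).le hc h
    · refine sum_congr rfl fun t _ => if_congr ⟨fun h => ?_, fun h => by rw [h]⟩ rfl rfl
      exact hx3 v _ _ (ha t) hc h
  have hQ0 : ∀ v, (∀ c ≤ ℓ, x v c ≠ v) → ∑ w, Q v w = 0 := by
    intro v hv
    rw [hQdeg]
    refine sum_eq_zero fun t _ => ?_
    rw [if_neg (hv _ (ha t).le), if_neg (hv _ (ha t)), add_zero]
  refine ⟨N, Q, ?_, ?_, ?_, ?_, ?_, ?_, ?_⟩
  · intro t u v
    show base t u v - rem t u v = base t v u - rem t v u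
    rw [rsym]
    congr 1
    show A u v + (m - g) * f t.1 u v = A v u + (m - g) * f t.1 v u
    rw [hAs, hsym]
  · intro u v
    exact sum_congr rfl fun t _ => rsym t u v
  · intro u v
    show ∑ t, (base t u v - rem t u v) + ∑ t, rem t u v = M0 * (m * A u v)
    rw [← sum_add_distrib]
    have h1 : ∀ t, base t u v - rem t u v + rem t u v = base t u v := by
      intro t
      have := hrb t u v
      omega
    rw [sum_congr rfl (fun t _ => h1 t)]
    show ∑ t : ι × Fin M0, (A u v + (m - g) * f t.1 u v) = _
    rw [Fintype.sum_prod_type]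
    have h2 : ∀ i, ∑ _b : Fin M0, (A u v + (m - g) * f i u v) =
        M0 * (A u v + (m - g) * f i u v) := by
      intro i
      rw [sum_const, card_univ, Fintype.card_fin, smul_eq_mul]
    rw [sum_congr rfl (fun i _ => h2 i), ← mul_sum, sum_add_distrib, ← mul_sum, hA, sum_const,
      card_univ, smul_eq_mul, ← add_mul]
    have : g ≤ m := hι
    rw [Nat.add_sub_cancel' this]
  · intro t u
    rw [hNdeg]
    omega
  · intro t v
    have hend : ∀ u, S.Reachable v u → (u = x v (a t) ∨ u = x v (a t + 1)) →
        ∑ w, N t u w < 2 * m := by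
      intro u hu h
      rw [hNdeg, rsum, ← hx4 v u hu]
      rcases h with h | h
      · rw [if_pos h.symm]
        omega
      · rw [if_pos h.symm]
        omega
    have hwalk : ∀ {b c : V} (_ : S.Walk b c), S.Reachable v b → c = x v (a t) →
        ∃ u, (cg N t).Reachable b u ∧ ∑ w, N t u w < 2 * m := by
      intro b c p
      induction p with
      | nil =>
        intro hb hc
        exact ⟨_, Reachable.refl _, hend _ hb (Or.inl hc)⟩
      | @cons b d c hbd p ih =>
        intro hb hc
        rcases Nat.eq_zero_or_pos (rem t b d) with h | h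
        · obtain ⟨u, hu1, hu2⟩ := ih (hb.trans hbd.reachable) hc
          refine ⟨u, Reachable.trans (Adj.reachable ⟨hbd.ne, Or.inl ?_⟩) hu1, hu2⟩
          show 0 < base t b d - rem t b d
          rw [h]
          have := hSA b d hbd
          show 0 < A b d + (m - g) * f t.1 b d - 0
          omega
        · refine ⟨b, Reachable.refl _, hend b hb ?_⟩
          have hxb := hx4 v b hb
          by_cases h1 : x b (a t) = b ∧ x b (a t + 1) = d
          · left
            rw [hxb]
            exact h1.1.symm
          · by_cases h2 : x b (a t + 1) = b ∧ x b (a t) = d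
            · right
              rw [hxb]
              exact h2.1.symm
            · have h3 : rem t b d = 0 := by
                show (if x b (a t) = b ∧ x b (a t + 1) = d then 1 else 0) +
                  (if x b (a t + 1) = b ∧ x b (a t) = d then 1 else 0) = 0
                rw [if_neg h1, if_neg h2]
              omega
    obtain ⟨p⟩ := hx1 v (a t) (ha t).le
    exact hwalk p (Reachable.refl _) rfl
  · intro u
    by_cases hu : ∃ c ≤ ℓ, x u c = u
    · obtain ⟨c, hc, hcu⟩ := hu
      have h1 := hQc u c hc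
      rw [hcu] at h1
      rw [h1]
      exact ha2 c
    · push Not at hu
      rw [hQ0 u hu]
      omega
  · intro v
    by_cases hv : ∃ c ≤ ℓ, x v c = v
    · obtain ⟨c, hc, hcv⟩ := hv
      have key : ∀ c ≤ ℓ, ∃ u, (cg (fun _ : Unit => Q) ()).Reachable (x v c) u ∧
          ∑ w, Q u w < m := by
        intro c
        induction c with
        | zero =>
          intro _
          refine ⟨x v 0, Reachable.refl _, ?_⟩
          rw [hQc v 0 (by omega)]
          have h1 : univ.filter (fun t : ι × Fin M0 => a t + 1 = 0) = ∅ := by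
            ext t
            simp
          rw [h1, card_empty]
          have := ha1 0
          omega
        | succ c ih =>
          intro hc
          by_cases h1 : (univ.filter (fun t => a t = c + 1)).card +
              (univ.filter (fun t => a t + 1 = c + 1)).card < m
          · exact ⟨_, Reachable.refl _, by rw [hQc v (c + 1) hc]; exact h1⟩
          · have h2 := ha1 (c + 1)
            have h3 : 0 < (univ.filter (fun t => a t + 1 = c + 1)).card := by omega
            obtain ⟨t, ht⟩ := card_pos.1 h3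
            have ht' : a t = c := by
              have := (mem_filter.1 ht).2
              omega
            obtain ⟨u, hu1, hu2⟩ := ih (by omega)
            refine ⟨u, Reachable.trans (Adj.reachable ⟨?_, Or.inr ?_⟩) hu1, hu2⟩
            · exact (hx2 v c (by omega)).ne'
            · show 0 < Q (x v c) (x v (c + 1))
              have h4 : 0 < rem t (x v c) (x v (c + 1)) := by
                show 0 < (if x (x v c) (a t) = x v c ∧ x (x v c) (a t + 1) = x v (c + 1)
                  then 1 else 0) + (if x (x v c) (a t + 1) = x v c ∧ x (x v c) (a t) =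
                  x v (c + 1) then 1 else 0)
                rw [hxx v c (by omega), ht', if_pos ⟨rfl, rfl⟩]
                omega
              exact lt_of_lt_of_le h4 (single_le_sum (f := fun t => rem t (x v c) (x v (c + 1)))
                (fun _ _ => Nat.zero_le _) (mem_univ t))
      obtain ⟨u, hu1, hu2⟩ := key c hc
      rw [hcv] at hu1
      exact ⟨u, hu1, hu2⟩
    · push Not at hv
      refine ⟨v, Reachable.refl _, ?_⟩
      rw [hQ0 v hv]
      omega

end Pool.Agent.Q105.LAB
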