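import Pool.Agent.Q105.LAB.Load

set_option autoImplicit false

/-!
Applications of the load criterion for blow-ups.
-/

namespace Pool.Agent.Q105.LAB

open Finset SimpleGraph H931R3.LA Pool.Agent.W111.LAR

theorem cyc_mono {V : Type} [Finite V] {F H : SimpleGraph V} (hFH : F ≤ H)
    (hdeg : ∀ v, (H.neighborSet v).ncard ≤ 2) {v : V} (h : Cyc F v) :
    Cyc H v ∧ csize H v = csize F v := by
  have hnb : ∀ w, F.Reachable v w → F.neighborSet w = H.neighborSet w := by
    intro w hw
    refine Set.eq_of_subset_of_ncard_le (fun u hu => hFH hu) ?_ (Set.toFinite _)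
    rw [h w hw]
    exact hdeg w
  have hr : ∀ w, H.Reachable v w → F.Reachable v w := by
    have key : ∀ {a b : V} (_ : H.Walk a b), F.Reachable v a → F.Reachable v b := by
      intro a b p
      induction p with
      | nil => exact id
      | @cons a d b had p ih =>
        intro ha
        apply ih
        have h1 : d ∈ F.neighborSet a := by
          rw [hnb a ha]
          exact had
        exact ha.trans (Adj.reachable h1)
    rintro w ⟨p⟩
    exact key p (Reachable.refl _)
  refine ⟨?_, ?_⟩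
  · intro w hw
    rw [← hnb w (hr w hw)]
    exact h w (hr w hw)
  · unfold csize
    congr 1
    ext w
    exact ⟨fun hw => hr w hw, fun hw => hw.mono hFH⟩

open Classical in
/-- The load criterion for blow-ups. -/
theorem cov_load {V κ : Type} [Finite V] [Fintype κ] (H : κ → SimpleGraph V)
    (hdeg : ∀ i v, ((H i).neighborSet v).ncard ≤ 2)
    (hload : ∀ v, ∑ i, (if Cyc (H i) v then (2 : ℝ) / csize (H i) v else 0) ≤ 1)
    {m : ℕ} (hm1 : 1 ≤ m) : Cov (bl (⨆ i, H i) (Fin m)) (m * Fintype.card κ + 1) := by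
  let e : κ ≃ Fin (Fintype.card κ) := Fintype.equivFin κ
  let H' : κ → SimpleGraph V := fun i =>
    { Adj := fun u v => (H i).Adj u v ∧ ∀ j, e j < e i → ¬ (H j).Adj u v
      symm := ⟨fun u v h => ⟨h.1.symm, fun j hj h' => h.2 j hj h'.symm⟩⟩
      loopless := ⟨fun u h => (H i).loopless.irrefl u h.1⟩ }
  have hle : ∀ i, H' i ≤ H i := fun i u v h => h.1
  have hsup : (⨆ i, H' i) = ⨆ i, H i := by
    ext u v
    rw [iSup_adj, iSup_adj]
    constructor
    · rintro ⟨i, hi⟩
      exact ⟨i, hi.1⟩
    · rintro ⟨i, hi⟩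
      obtain ⟨j, hj1, hj2⟩ := exists_min_image (univ.filter (fun j => (H j).Adj u v))
        (fun j => e j) ⟨i, mem_filter.2 ⟨mem_univ _, hi⟩⟩
      refine ⟨j, (mem_filter.1 hj1).2, fun l hl h => ?_⟩
      exact absurd (hj2 l (mem_filter.2 ⟨mem_univ _, h⟩)) (not_le.2 hl)
  rw [← hsup]
  refine cov_sys H' ?_ ?_ ?_ hm1
  · intro i v
    exact le_trans (Set.ncard_le_ncard (fun u hu => hle i hu) (Set.toFinite _)) (hdeg i v)
  · intro i j u v hi hj
    rcases lt_trichotomy (e i) (e j) with h | h | h
    · exact absurd hi.1 (hj.2 i h)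
    · exact e.injective h
    · exact absurd hj.1 (hi.2 j h)
  · intro v
    refine le_trans (sum_le_sum fun i _ => ?_) (hload v)
    by_cases h : Cyc (H' i) v
    · obtain ⟨h1, h2⟩ := cyc_mono (hle i) (hdeg i) h
      rw [if_pos h, if_pos h1, h2]
    · rw [if_neg h]
      split_ifs
      · positivity
      · exact le_rfl

theorem cov_long {V : Type} [Finite V] (G : SimpleGraph V) (k m : ℕ) (hm1 : 1 ≤ m)
    (hdeg : ∀ v, (G.neighborSet v).ncard ≤ 2 * k)
    (hcyc : ∀ (v : V) (c : G.Walk v v), c.IsCycle → 2 * k ≤ c.length) :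
    Cov (bl G (Fin m)) (m * k + 1) := by
  classical
  obtain ⟨H, hH, rfl⟩ := decomp G k hdeg
  have h1 := cov_load H hH (by
    intro v
    rcases Nat.eq_zero_or_pos k with hk | hk
    · subst hk
      simp
    · have hk0 : (0 : ℝ) < k := by exact_mod_cast hk
      refine le_trans (sum_le_sum (g := fun _ => (1 : ℝ) / k) ?_) ?_
      · intro i _
        split_ifs with h
        · obtain ⟨w, c, hc, hlen⟩ := exists_cycle h
          have hle : H i ≤ ⨆ i, H i := le_iSup H i
          have h2 := hcyc w (c.mapLe hle) (hc.mapLe hle)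
          rw [Walk.length_mapLe] at h2
          have h3 : ((2 * k : ℕ) : ℝ) ≤ csize (H i) v := by exact_mod_cast h2.trans hlen
          push_cast at h3
          rw [div_le_div_iff₀ (by linarith) hk0]
          linarith
        · positivity
      · rw [sum_const, card_univ, Fintype.card_fin, nsmul_eq_mul, mul_one_div, div_self hk0.ne'])
    hm1
  rw [Fintype.card_fin] at h1
  exact h1

/-- Cayley graphs without involutions. -/
theorem cov_cay {Γ : Type} [Group Γ] [Finite Γ] (S : Finset Γ) (hone : (1 : Γ) ∉ S)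
    (hinv : ∀ s ∈ S, s⁻¹ ∈ S) (hno : ∀ s ∈ S, s * s ≠ 1)
    (hsum : ∑ s ∈ S, (1 : ℝ) / orderOf s ≤ 1) (G : SimpleGraph Γ)
    (hG : ∀ g h, G.Adj g h ↔ g⁻¹ * h ∈ S) {m : ℕ} (hm1 : 1 ≤ m) :
    Cov (bl G (Fin m)) (m * (S.card / 2) + 1) := by
  classical
  have := Fintype.ofFinite Γ
  obtain ⟨T, hTS, hT, hcard, hf⟩ := halve S hinv hno
  have hGT : G = ⨆ s : T, gen s.1 (fun h => hone (h ▸ hTS s.2)) := by
    ext g h
    rw [hG, cay_sup T S hTS hone hinv hT]
  have h1 := cov_load (fun s : T => gen s.1 (fun h => hone (h ▸ hTS s.2)))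
    (fun s g => gen_deg _ _ g) (by
      intro g
      refine le_trans ?_ hsum
      rw [hf (fun s => 1 / orderOf s) (fun s => by rw [orderOf_inv]), mul_sum,
        ← sum_coe_sort T]
      refine sum_le_sum fun s _ => ?_
      have hpos : (0 : ℝ) < orderOf s.1 := by exact_mod_cast orderOf_pos s.1
      split_ifs with h
      · have h2 : (orderOf s.1 : ℝ) ≤ csize (gen s.1 (fun h => hone (h ▸ hTS s.2))) g := by
          exact_mod_cast gen_size _ _ g
        rw [mul_one_div]
        exact div_le_div_of_nonneg_left (by norm_num) hpos h2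
      · positivity) hm1
  rw [Fintype.card_coe, ← hGT] at h1
  have h2 : S.card / 2 = T.card := by omega
  rwa [h2]

end Pool.Agent.Q105.LAB
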