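import Pool.Agent.Q105.LAB.Own

set_option autoImplicit false

/-!
Blow-ups of regular graphs of odd degree with classes of odd size.
-/

namespace Pool.Agent.Q105.LAB

open Finset SimpleGraph H931R3.LA Pool.Agent.W111.LAR

/-- Classes of odd size. -/
theorem cov_odd_odd {V : Type} [Finite V] (G : SimpleGraph V) (ρ p : ℕ) (hρ : ρ ≤ p)
    (hreg : ∀ v, (G.neighborSet v).ncard = 2 * ρ + 1) :
    Cov (bl G (Fin (2 * p + 1))) (2 * ρ * p + ρ + p + 1) := by
  classical
  have iV : Fintype V := Fintype.ofFinite V
  obtain ⟨σ, h1, h2⟩ := perms G (2 * ρ + 1) hreg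
  obtain ⟨q, hq⟩ : ∃ q, q = 2 * ρ * p + ρ + p := ⟨_, rfl⟩
  obtain ⟨m, hm⟩ : ∃ m, m = 2 * p + 1 := ⟨_, rfl⟩
  obtain ⟨h, hh⟩ : ∃ h, h = p - ρ := ⟨_, rfl⟩
  obtain ⟨g, g1, g2, g3⟩ := exists_owner G p q (2 * ρ + 1 + 1)
    (fun v => by rw [← hreg v]; exact comp_ge G v) (by rw [hq]; nlinarith)
  have hcardE : Fintype.card (Option (Fin q × Bool)) = Fintype.card (Fin (2 * ρ + 1) × Fin m) := by
    rw [Fintype.card_option, Fintype.card_prod, Fintype.card_prod, Fintype.card_fin,
      Fintype.card_fin, Fintype.card_fin, Fintype.card_bool, hq, hm]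
    ring
  let e : Option (Fin q × Bool) ≃ Fin (2 * ρ + 1) × Fin m := Fintype.equivOfCardEq hcardE
  let s : Equiv.Perm V := σ ⟨0, by omega⟩
  have hs : ∀ v, G.Adj v (s v) := fun v => h1 _ v
  let own : Fin q → V → ℕ := fun j v => if g v j = v then 1 else 0
  let rem : Fin q → V → V → ℕ := fun j u v =>
    (if s u = v then own j u else 0) + (if s v = u then own j v else 0)
  let tt : Fin q → V → ℕ := fun j v => own j v + own j (s.symm v)
  let N : Option (Fin q) → V → V → ℕ := fun j u v => match j with
    | none => (if G.Adj u v then 1 else 0) + h * ff (σ (e none).1) u v + ∑ j, rem j u v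
    | some j => (2 * (if G.Adj u v then 1 else 0) - rem j u v) +
        h * (ff (σ (e (some (j, false))).1) u v + ff (σ (e (some (j, true))).1) u v)
  let T : Option (Fin q) → V → ℕ := fun j v => match j with
    | none => m - ∑ j, tt j v
    | some j => tt j v
  have hown : ∀ j v, own j v ≤ 1 := by
    intro j v
    show (if g v j = v then 1 else 0) ≤ 1
    split_ifs <;> omega
  have frem : ∀ j u v, rem j u v = rem j v u := fun j u v => add_comm _ _
  have fremoff : ∀ j u v, ¬ G.Adj u v → rem j u v = 0 := by
    intro j u v huv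
    show (if s u = v then own j u else 0) + (if s v = u then own j v else 0) = 0
    rw [if_neg, if_neg]
    · intro h3
      exact huv (h3 ▸ (hs v).symm)
    · intro h3
      exact huv (h3 ▸ hs u)
  have frem1 : ∀ j u v, rem j u v ≤ 1 := by
    intro j u v
    show (if s u = v then own j u else 0) + (if s v = u then own j v else 0) ≤ 1
    have h3 := hown j u
    have h4 := hown j v
    by_cases h5 : s u = v
    · by_cases h6 : s v = u
      · rw [if_pos h5, if_pos h6]
        have huv : G.Adj u v := h5 ▸ hs u
        by_contra hcon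
        have h7 : own j u = 1 := by omega
        have h8 : own j v = 1 := by omega
        have h9 : g u j = u := by
          by_contra hne
          have : own j u = 0 := if_neg hne
          omega
        have h10 : g v j = v := by
          by_contra hne
          have : own j v = 0 := if_neg hne
          omega
        have h11 := g2 u v j huv.reachable
        rw [h9, h10] at h11
        exact huv.ne h11
      · rw [if_neg h6]
        split_ifs <;> omega
    · rw [if_neg h5]
      split_ifs <;> omega
  have fremle : ∀ j u v, rem j u v ≤ 2 * (if G.Adj u v then 1 else 0) := by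
    intro j u v
    split_ifs with h3
    · have := frem1 j u v
      omega
    · exact (fremoff j u v h3).le.trans (Nat.zero_le _)
  have fsum : ∀ j u, ∑ v, rem j u v = tt j u := by
    intro j u
    show ∑ v, ((if s u = v then own j u else 0) + (if s v = u then own j v else 0)) =
      own j u + own j (s.symm u)
    rw [sum_add_distrib, sum_ite_eq univ (s u), if_pos (mem_univ _)]
    congr 1
    rw [sum_eq_single (s.symm u), if_pos (Equiv.apply_symm_apply _ _)]
    · intro v _ hv
      refine if_neg fun h => hv ?_
      rw [← h, Equiv.symm_apply_apply]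
    · intro h
      exact absurd (mem_univ _) h
  have fown : ∀ v, ∑ j, own j v ≤ p := by
    intro v
    show ∑ j, (if g v j = v then 1 else 0) ≤ p
    rw [← card_filter]
    refine le_trans (le_of_eq ?_) (g3 v)
    rw [← Set.ncard_coe_finset]
    congr 1
    ext j
    simp
  have ftt : ∀ v, ∑ j, tt j v ≤ 2 * p := by
    intro v
    show ∑ j, (own j v + own j (s.symm v)) ≤ 2 * p
    rw [sum_add_distrib]
    have := fown v
    have := fown (s.symm v)
    omega
  have fadj : ∀ u, ∑ v, (if G.Adj u v then 1 else 0) = 2 * ρ + 1 := by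
    intro u
    rw [← hreg u]
    exact sum_adj G u
  have hTsome : ∀ j v, T (some j) v = tt j v := fun _ _ => rfl
  have hTnone : ∀ v, T none v = m - ∑ j, tt j v := fun _ => rfl
  have hsome : ∀ j v, own j v ≤ tt j v := by
    intro j v
    show own j v ≤ own j v + own j (s.symm v)
    omega
  rw [← hm]
  have hJ : Fintype.card (Option (Fin q)) = 2 * ρ * p + ρ + p + 1 := by
    rw [Fintype.card_option, Fintype.card_fin, hq]
  rw [← hJ]
  refine cov_amal G (by omega) N T ?_ ?_ ?_ ?_ ?_ ?_
  · rintro (_ | j) u v
    · show (if G.Adj u v then 1 else 0) + h * ff (σ (e none).1) u v + ∑ j, rem j u v =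
        (if G.Adj v u then 1 else 0) + h * ff (σ (e none).1) v u + ∑ j, rem j v u
      rw [ff_symm, sum_congr rfl (fun j _ => frem j u v)]
      congr 2
      exact if_congr (G.adj_comm u v) rfl rfl
    · show (2 * (if G.Adj u v then 1 else 0) - rem j u v) +
        h * (ff (σ (e (some (j, false))).1) u v + ff (σ (e (some (j, true))).1) u v) =
        (2 * (if G.Adj v u then 1 else 0) - rem j v u) +
        h * (ff (σ (e (some (j, false))).1) v u + ff (σ (e (some (j, true))).1) v u)
      rw [ff_symm _ u v, ff_symm _ u v, frem j u v]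
      congr 3
      exact if_congr (G.adj_comm u v) rfl rfl
  · rintro (_ | j) u v huv
    · show (if G.Adj u v then 1 else 0) + h * ff (σ (e none).1) u v + ∑ j, rem j u v = 0
      rw [if_neg huv, ff_off h1 _ huv, sum_eq_zero (fun j _ => fremoff j u v huv), mul_zero]
      rfl
    · show (2 * (if G.Adj u v then 1 else 0) - rem j u v) +
        h * (ff (σ (e (some (j, false))).1) u v + ff (σ (e (some (j, true))).1) u v) = 0
      rw [if_neg huv, ff_off h1 _ huv, ff_off h1 _ huv, mul_zero, Nat.zero_sub]
      simp
  · intro u v huv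
    rw [Fintype.sum_option]
    show (if G.Adj u v then 1 else 0) + h * ff (σ (e none).1) u v + ∑ j, rem j u v +
      ∑ j, ((2 * (if G.Adj u v then 1 else 0) - rem j u v) +
        h * (ff (σ (e (some (j, false))).1) u v + ff (σ (e (some (j, true))).1) u v)) = m * m
    have e1 : ∑ j, ((2 * (if G.Adj u v then 1 else 0) - rem j u v) +
        h * (ff (σ (e (some (j, false))).1) u v + ff (σ (e (some (j, true))).1) u v)) =
        ∑ j, (2 * 1 - rem j u v) +
        h * ∑ j, (ff (σ (e (some (j, false))).1) u v + ff (σ (e (some (j, true))).1) u v) := by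
      rw [sum_add_distrib, ← mul_sum, if_pos huv]
    rw [e1, if_pos huv]
    have k1 : ∑ j, rem j u v + ∑ j, (2 * 1 - rem j u v) = 2 * q := by
      rw [← sum_add_distrib]
      have : ∀ j, rem j u v + (2 * 1 - rem j u v) = 2 := by
        intro j
        have := frem1 j u v
        omega
      rw [sum_congr rfl (fun j _ => this j), sum_const, card_univ, Fintype.card_fin, smul_eq_mul,
        mul_comm]
    have k2 : ff (σ (e none).1) u v +
        ∑ j, (ff (σ (e (some (j, false))).1) u v + ff (σ (e (some (j, true))).1) u v) =
        m * 2 := by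
      have k3 : ∑ a : Option (Fin q × Bool), ff (σ (e a).1) u v =
          ∑ b : Fin (2 * ρ + 1) × Fin m, ff (σ b.1) u v :=
        Equiv.sum_comp e (fun b => ff (σ b.1) u v)
      rw [Fintype.sum_option, Fintype.sum_prod_type, Fintype.sum_prod_type] at k3
      have k4 : ∀ i : Fin (2 * ρ + 1), ∑ _b : Fin m, ff (σ i) u v = m * ff (σ i) u v := by
        intro i
        rw [sum_const, card_univ, Fintype.card_fin, smul_eq_mul]
      rw [sum_congr rfl (fun i _ => k4 i), ← mul_sum, ff_tot h2 huv] at k3
      rw [← k3]
      congr 1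
      refine sum_congr rfl fun j _ => ?_
      rw [Fintype.sum_bool, add_comm]
    have k5 : h * ff (σ (e none).1) u v +
        h * ∑ j, (ff (σ (e (some (j, false))).1) u v + ff (σ (e (some (j, true))).1) u v) =
        h * (m * 2) := by
      rw [← mul_add, k2]
    have k6 : m * m = 1 + 2 * q + h * (m * 2) := by
      have : p = ρ + h := by omega
      rw [hq, hm, this]
      ring
    omega
  · intro i1 j u
    obtain rfl : i1 = iV := Subsingleton.elim _ _
    cases j with
    | none =>
      show ∑ v, ((if G.Adj u v then 1 else 0) + h * ff (σ (e none).1) u v + ∑ j, rem j u v) +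
        (m - ∑ j, tt j u) = m * 2
      rw [sum_add_distrib, sum_add_distrib, ← mul_sum, ff_sum, fadj, sum_comm,
        sum_congr rfl (fun j _ => fsum j u)]
      have := ftt u
      omega
    | some j =>
      show ∑ v, ((2 * (if G.Adj u v then 1 else 0) - rem j u v) +
        h * (ff (σ (e (some (j, false))).1) u v + ff (σ (e (some (j, true))).1) u v)) +
        tt j u = m * 2
      rw [sum_add_distrib, ← mul_sum, sum_add_distrib, ff_sum, ff_sum,
        sum_tsub_distrib _ (fun v _ => fremle j u v), ← mul_sum, fadj, fsum]
      have k1 : tt j u ≤ 2 * (2 * ρ + 1) := by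
        rw [← fsum, ← fadj u, mul_sum]
        exact sum_le_sum fun v _ => fremle j u v
      omega
  · rintro (_ | j) u v huv
    · show 0 < (if G.Adj u v then 1 else 0) + h * ff (σ (e none).1) u v + ∑ j, rem j u v
      rw [if_pos huv]
      omega
    · show 0 < (2 * (if G.Adj u v then 1 else 0) - rem j u v) +
        h * (ff (σ (e (some (j, false))).1) u v + ff (σ (e (some (j, true))).1) u v)
      rw [if_pos huv]
      have := frem1 j u v
      omega
  · rintro (_ | j) v
    · refine ⟨v, Reachable.refl _, ?_⟩
      rw [hTnone]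
      have := ftt v
      omega
    · refine ⟨g v j, g1 v j, ?_⟩
      rw [hTsome]
      have k1 : own j (g v j) = 1 := if_pos (g2 v (g v j) j (g1 v j)).symm
      have k2 := hsome j (g v j)
      omega

end Pool.Agent.Q105.LAB
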