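import Mathlib

set_option autoImplicit false

/-!
A selection lemma: from a bipartite-like family of tokens with balanced colours and balanced ends
one can select two tokens of each colour and the right number of tokens at every end, such that
paired tokens are not selected together.
-/

namespace Pool.Agent.Q105.LAB

open Finset

/-- Hall's theorem with weights. -/
theorem hall_w {L R : Type} [Fintype L] [Fintype R] [DecidableEq R] (ω : L → R → ℚ)
    (h0 : ∀ l r, 0 ≤ ω l r) (h1 : ∀ l, ∑ r, ω l r = 1) (h2 : ∀ r, ∑ l, ω l r ≤ 1) :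
    ∃ f : L → R, Function.Injective f ∧ ∀ l, 0 < ω l (f l) := by
  classical
  let T : L → Finset R := fun l => univ.filter (fun r => 0 < ω l r)
  have hall : ∀ s : Finset L, s.card ≤ (s.biUnion T).card := by
    intro s
    have h3 : (s.card : ℚ) ≤ ((s.biUnion T).card : ℚ) := by
      calc (s.card : ℚ) = ∑ l ∈ s, ∑ r, ω l r := by
            rw [sum_congr rfl (fun l _ => h1 l), sum_const, nsmul_eq_mul, mul_one]
        _ = ∑ l ∈ s, ∑ r ∈ s.biUnion T, ω l r := by
            refine sum_congr rfl fun l hl => ?_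
            symm
            refine sum_subset (subset_univ _) fun r _ hr => ?_
            by_contra hne
            apply hr
            rw [mem_biUnion]
            exact ⟨l, hl, mem_filter.2 ⟨mem_univ _, lt_of_le_of_ne (h0 l r) (Ne.symm hne)⟩⟩
        _ = ∑ r ∈ s.biUnion T, ∑ l ∈ s, ω l r := sum_comm
        _ ≤ ∑ r ∈ s.biUnion T, 1 := by
            refine sum_le_sum fun r _ => le_trans ?_ (h2 r)
            exact sum_le_sum_of_subset_of_nonneg (subset_univ _) fun l _ _ => h0 l r
        _ = _ := by simp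
    exact_mod_cast h3
  obtain ⟨f, hf, hfT⟩ := (Finset.all_card_le_biUnion_card_iff_exists_injective T).1 hall
  exact ⟨f, hf, fun l => (mem_filter.1 (hfT l)).2⟩

/-- The selection lemma. -/
theorem pick {S J Y R : Type} [Fintype S] [Fintype J] [Fintype Y] [Fintype R] [DecidableEq S]
    [DecidableEq J] [DecidableEq Y] [DecidableEq R] (col : S → J) (en : S → Y) (q : S → R)
    (cR : R → J) (hcR : ∀ s, cR (q s) = col s)
    (hq : ∀ ρ, (univ.filter (fun s => q s = ρ)).card ≤ 2) (N : ℕ) (hN : 2 ≤ N)
    (hcol : ∀ j, (univ.filter (fun s => col s = j)).card = 2 * N) (b : Y → ℕ)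
    (hen : ∀ y, (univ.filter (fun s => en s = y)).card = N * b y) :
    ∃ Z : Finset S, (∀ j, (Z.filter (fun s => col s = j)).card = 2) ∧
      (∀ y, (Z.filter (fun s => en s = y)).card = b y) ∧ Set.InjOn q (Z : Set S) := by
  classical
  let Rj : J → Finset R := fun j => univ.filter (fun ρ => cR ρ = j)
  let A : Type := Σ y : Y, Fin (b y)
  let D : Type := Σ j : J, Fin ((Rj j).card - 2)
  let e : R → Y → ℕ := fun ρ y => (univ.filter (fun s => q s = ρ ∧ en s = y)).card
  let sz : R → ℕ := fun ρ => (univ.filter (fun s => q s = ρ)).card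
  let ω : A ⊕ D → R → ℚ := fun l ρ => match l with
    | Sum.inl a => (e ρ a.1 : ℚ) / (N * b a.1 : ℕ)
    | Sum.inr d => if cR ρ = d.1 then (1 - (sz ρ : ℚ) / N) / ((Rj d.1).card - 2 : ℕ) else 0
  have hN0 : (0 : ℚ) < N := by exact_mod_cast (by omega : 0 < N)
  have hN1 : (N : ℚ) ≠ 0 := ne_of_gt hN0
  have hsz : ∀ ρ, (sz ρ : ℚ) / N ≤ 1 := by
    intro ρ
    rw [div_le_one hN0]
    have : sz ρ ≤ N := le_trans (hq ρ) hN
    exact_mod_cast this
  have hsumsz : ∀ j, ∑ ρ ∈ Rj j, sz ρ = 2 * N := by
    intro j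
    rw [← hcol j, card_eq_sum_card_fiberwise (f := q) (t := Rj j)]
    · refine sum_congr rfl fun ρ hρ => ?_
      show (univ.filter (fun s => q s = ρ)).card = _
      congr 1
      ext s
      simp only [mem_filter, mem_univ, true_and]
      constructor
      · intro h
        refine ⟨?_, h⟩
        rw [← hcR, h]
        exact (mem_filter.1 hρ).2
      · exact fun h => h.2
    · intro s hs
      have h1 : col s = j := (mem_filter.1 hs).2
      exact mem_coe.2 (mem_filter.2 ⟨mem_univ _, by rw [hcR, h1]⟩)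
  have hesum : ∀ y, ∑ ρ, e ρ y = N * b y := by
    intro y
    rw [← hen y, card_eq_sum_card_fiberwise (f := q) (t := univ) (fun _ _ => mem_coe.2 (mem_univ _))]
    refine sum_congr rfl fun ρ _ => ?_
    show (univ.filter (fun s => q s = ρ ∧ en s = y)).card = _
    congr 1
    ext s
    simp only [mem_filter, mem_univ, true_and]
    tauto
  have hesz : ∀ ρ, ∑ y, e ρ y = sz ρ := by
    intro ρ
    show _ = (univ.filter (fun s => q s = ρ)).card
    rw [card_eq_sum_card_fiberwise (f := en) (t := univ) (fun _ _ => mem_coe.2 (mem_univ _))]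
    refine sum_congr rfl fun y _ => ?_
    show (univ.filter (fun s => q s = ρ ∧ en s = y)).card = _
    congr 1
    ext s
    simp only [mem_filter, mem_univ, true_and]
  obtain ⟨f, hf, hfω⟩ := hall_w ω (by
      rintro (a | d) ρ
      · show (0 : ℚ) ≤ (e ρ a.1 : ℚ) / (N * b a.1 : ℕ)
        positivity
      · show (0 : ℚ) ≤ if cR ρ = d.1 then (1 - (sz ρ : ℚ) / N) / ((Rj d.1).card - 2 : ℕ) else 0
        split_ifs
        · have := hsz ρ
          exact div_nonneg (by linarith) (by positivity)
        · exact le_rfl) (by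
      rintro (a | d)
      · show ∑ ρ, (e ρ a.1 : ℚ) / (N * b a.1 : ℕ) = 1
        rw [← sum_div, ← Nat.cast_sum, hesum, div_self]
        have hb : 0 < b a.1 := lt_of_le_of_lt (Nat.zero_le _) a.2.2
        have : 0 < N * b a.1 := Nat.mul_pos (by omega) hb
        exact_mod_cast this.ne'
      · show ∑ ρ, (if cR ρ = d.1 then (1 - (sz ρ : ℚ) / N) / ((Rj d.1).card - 2 : ℕ) else 0) = 1
        rw [← sum_filter]
        show ∑ ρ ∈ Rj d.1, (1 - (sz ρ : ℚ) / N) / ((Rj d.1).card - 2 : ℕ) = 1
        rw [← sum_div, sum_sub_distrib, ← sum_div, ← Nat.cast_sum, hsumsz, sum_const]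
        have hd : 0 < (Rj d.1).card - 2 := lt_of_le_of_lt (Nat.zero_le _) d.2.2
        have h1 : (2 * N : ℕ) / (N : ℚ) = 2 := by
          push_cast
          field_simp
        rw [h1, Nat.cast_sub (by omega)]
        have h2 : ((Rj d.1).card : ℚ) - (2 : ℕ) ≠ 0 := by
          have : (2 : ℚ) < (Rj d.1).card := by exact_mod_cast (by omega : 2 < (Rj d.1).card)
          push_cast
          linarith
        rw [nsmul_eq_mul, mul_one]
        push_cast at h2 ⊢
        exact div_self h2) (by
      intro ρ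
      rw [Fintype.sum_sum_type]
      have hA : ∑ a : A, ω (Sum.inl a) ρ = (sz ρ : ℚ) / N := by
        rw [Fintype.sum_sigma]
        have : ∀ y, ∑ i : Fin (b y), ω (Sum.inl ⟨y, i⟩) ρ = (e ρ y : ℚ) / N := by
          intro y
          show ∑ i : Fin (b y), (e ρ y : ℚ) / (N * b y : ℕ) = _
          rw [sum_const, card_univ, Fintype.card_fin, nsmul_eq_mul]
          rcases Nat.eq_zero_or_pos (b y) with hb | hb
          · have h1 : e ρ y = 0 := by
              have h2 : e ρ y ≤ ∑ ρ, e ρ y := single_le_sum (f := fun ρ => e ρ y)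
                (fun _ _ => Nat.zero_le _) (mem_univ ρ)
              rw [hesum, hb] at h2
              omega
            rw [h1, hb]
            simp
          · have hb0 : (b y : ℚ) ≠ 0 := by exact_mod_cast hb.ne'
            push_cast
            field_simp
        rw [sum_congr rfl (fun y _ => this y), ← sum_div, ← Nat.cast_sum, hesz]
      have hD : ∑ d : D, ω (Sum.inr d) ρ ≤ 1 - (sz ρ : ℚ) / N := by
        rw [Fintype.sum_sigma]
        have : ∀ j, ∑ i : Fin ((Rj j).card - 2), ω (Sum.inr ⟨j, i⟩) ρ =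
            if cR ρ = j then (((Rj j).card - 2 : ℕ) : ℚ) *
              ((1 - (sz ρ : ℚ) / N) / ((Rj j).card - 2 : ℕ)) else 0 := by
          intro j
          show ∑ i : Fin ((Rj j).card - 2), (if cR ρ = j then
            (1 - (sz ρ : ℚ) / N) / ((Rj j).card - 2 : ℕ) else 0) = _
          rw [sum_const, card_univ, Fintype.card_fin, nsmul_eq_mul]
          split_ifs
          · rfl
          · rw [mul_zero]
        rw [sum_congr rfl (fun j _ => this j), sum_ite_eq, if_pos (mem_univ _)]
        have h1 := hsz ρ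
        rcases Nat.eq_zero_or_pos ((Rj (cR ρ)).card - 2) with h2 | h2
        · rw [h2]
          simp only [Nat.cast_zero, zero_mul]
          linarith
        · have h3 : (((Rj (cR ρ)).card - 2 : ℕ) : ℚ) ≠ 0 := by exact_mod_cast h2.ne'
          rw [mul_div_cancel₀ _ h3]
      rw [hA]
      linarith)
  have hch : ∀ a : A, ∃ s : S, q s = f (Sum.inl a) ∧ en s = a.1 := by
    intro a
    have h := hfω (Sum.inl a)
    have h1 : 0 < (e (f (Sum.inl a)) a.1 : ℚ) / (N * b a.1 : ℕ) := h
    have h2 : e (f (Sum.inl a)) a.1 ≠ 0 := by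
      intro h0
      rw [h0] at h1
      simp at h1
    obtain ⟨s, hs⟩ := card_pos.1 (Nat.pos_of_ne_zero h2)
    exact ⟨s, (mem_filter.1 hs).2⟩
  choose g hg1 hg2 using hch
  have hdum : ∀ d : D, cR (f (Sum.inr d)) = d.1 := by
    intro d
    have h := hfω (Sum.inr d)
    by_contra hne
    have h1 : 0 < (if cR (f (Sum.inr d)) = d.1 then
      (1 - (sz (f (Sum.inr d)) : ℚ) / N) / ((Rj d.1).card - 2 : ℕ) else 0 : ℚ) := h
    rw [if_neg hne] at h1
    exact lt_irrefl _ h1
  have hgi : Function.Injective g := by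
    intro a a' h
    have h1 : f (Sum.inl a) = f (Sum.inl a') := by rw [← hg1, ← hg1, h]
    exact Sum.inl_injective (hf h1)
  let Z : Finset S := univ.image g
  have hqZ : Set.InjOn q (Z : Set S) := by
    intro s hs s' hs' h
    obtain ⟨a, _, rfl⟩ := mem_image.1 (mem_coe.1 hs)
    obtain ⟨a', _, rfl⟩ := mem_image.1 (mem_coe.1 hs')
    rw [hg1, hg1] at h
    rw [Sum.inl_injective (hf h)]
  have hZy : ∀ y, (Z.filter (fun s => en s = y)).card = b y := by
    intro y
    have h1 : Z.filter (fun s => en s = y) = (univ : Finset (Fin (b y))).image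
        (fun i => g ⟨y, i⟩) := by
      ext s
      simp only [mem_filter, mem_image, mem_univ, true_and, Z]
      constructor
      · rintro ⟨⟨⟨y', i⟩, rfl⟩, h⟩
        rw [hg2] at h
        subst h
        exact ⟨i, rfl⟩
      · rintro ⟨i, rfl⟩
        exact ⟨⟨_, rfl⟩, hg2 _⟩
    rw [h1, card_image_of_injective, card_univ, Fintype.card_fin]
    intro i i' h
    have h2 : (⟨y, i⟩ : A) = ⟨y, i'⟩ := hgi h
    exact eq_of_heq (Sigma.mk.inj h2).2
  have hZle : ∀ j, (Z.filter (fun s => col s = j)).card ≤ 2 := by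
    intro j
    have h1 : ((Z.filter (fun s => col s = j)).image q) ∪
        ((univ : Finset (Fin ((Rj j).card - 2))).image (fun i => f (Sum.inr ⟨j, i⟩))) ⊆ Rj j := by
      intro ρ hρ
      rcases mem_union.1 hρ with h | h
      · obtain ⟨s, hs, rfl⟩ := mem_image.1 h
        exact mem_filter.2 ⟨mem_univ _, by rw [hcR, (mem_filter.1 hs).2]⟩
      · obtain ⟨i, _, rfl⟩ := mem_image.1 h
        exact mem_filter.2 ⟨mem_univ _, hdum _⟩
    have h2 := card_le_card h1
    rw [card_union_of_disjoint, card_image_of_injOn, card_image_of_injective, card_univ,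
      Fintype.card_fin] at h2
    · omega
    · intro i i' h
      have h3 : (⟨j, i⟩ : D) = ⟨j, i'⟩ := Sum.inr_injective (hf h)
      exact eq_of_heq (Sigma.mk.inj h3).2
    · intro s hs s' hs' h
      exact hqZ (filter_subset _ _ hs) (filter_subset _ _ hs') h
    · rw [disjoint_left]
      intro ρ h3 h4
      obtain ⟨s, hs, rfl⟩ := mem_image.1 h3
      obtain ⟨i, _, h5⟩ := mem_image.1 h4
      obtain ⟨a, _, rfl⟩ := mem_image.1 (filter_subset _ _ hs)
      rw [hg1] at h5
      exact absurd (hf h5) (by simp)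
  have htot : ∑ j, (Z.filter (fun s => col s = j)).card = ∑ j : J, 2 := by
    have h1 : ∑ j, (Z.filter (fun s => col s = j)).card = Z.card :=
      (card_eq_sum_card_fiberwise (f := col) (t := univ) (fun _ _ => mem_coe.2 (mem_univ _))).symm
    have h2 : ∑ y, (Z.filter (fun s => en s = y)).card = Z.card :=
      (card_eq_sum_card_fiberwise (f := en) (t := univ) (fun _ _ => mem_coe.2 (mem_univ _))).symm
    have h3 : ∑ j, (univ.filter (fun s => col s = j)).card = (univ : Finset S).card :=
      (card_eq_sum_card_fiberwise (f := col) (t := univ) (fun _ _ => mem_coe.2 (mem_univ _))).symm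
    have h4 : ∑ y, (univ.filter (fun s => en s = y)).card = (univ : Finset S).card :=
      (card_eq_sum_card_fiberwise (f := en) (t := univ) (fun _ _ => mem_coe.2 (mem_univ _))).symm
    rw [h1, ← h2, sum_congr rfl (fun y _ => hZy y)]
    rw [sum_congr rfl (fun j _ => hcol j)] at h3
    rw [sum_congr rfl (fun y _ => hen y), ← h3, ← mul_sum, ← mul_sum] at h4
    have h5 : N * ∑ y, b y = N * ∑ _j : J, 2 := by
      rw [h4, sum_const, sum_const, smul_eq_mul, smul_eq_mul]
      ring
    exact Nat.eq_of_mul_eq_mul_left (by omega) h5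
  refine ⟨Z, fun j => ?_, hZy, hqZ⟩
  exact (sum_eq_sum_iff_of_le (fun j _ => hZle j)).1 htot j (mem_univ j)

end Pool.Agent.Q105.LAB
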